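import Mathlib
import Pool.Agent.W926.PS.Stm
import Pool.Agent.W926.PS.Base

/-!
Project PS: special case II, one more pattern.
-/

namespace W999.PS

open Finset W926.PS

variable {r a : ℕ}

lemma X01 {X Y : Fin 3 → Om r a} {i j : Fin r} {c d e : Fin a} (h : CaseII X Y i j c d e) :
    X 1 i ≠ X 0 i := fun q => h.atd (congrFun q d)

lemma X02 {X Y : Fin 3 → Om r a} {i j : Fin r} {c d e : Fin a} (h : CaseII X Y i j c d e) :
    X 2 i ≠ X 0 i := fun q => h.atc.2 (congrFun q c)

lemma XY {X Y : Fin 3 → Om r a} {i j : Fin r} {c d e : Fin a} (h : CaseII X Y i j c d e)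
    (g g' : Fin 3) : X g j ≠ Y g' j := by
  intro q
  have := congrFun q e
  rw [(h.ate g).1, (h.ate g').2] at this
  exact absurd this (by decide)

lemma Y0X1 {X Y : Fin 3 → Om r a} {i j : Fin r} {c d e : Fin a} (h : CaseII X Y i j c d e) :
    Y 0 ≠ X 1 := by
  intro q
  exact X01 h (by rw [← q, h.xy i h.ij 0])

lemma Y0X2 {X Y : Fin 3 → Om r a} {i j : Fin r} {c d e : Fin a} (h : CaseII X Y i j c d e) :
    Y 0 ≠ X 2 := by
  intro q
  exact X02 h (by rw [← q, h.xy i h.ij 0])

/-- case (a) -/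
lemma caseA {κ : ℕ} {F : Finset (Om r a → ℕ)} (hF : Rich κ F) {X Y : Fin 3 → Om r a} {i j : Fin r}
    {c d e : Fin a} (h : CaseII X Y i j c d e) (g : Fin 3)
    (hg : X g j ≠ X 0 j ∨ Y g j ≠ Y 0 j) : ∃ key ∈ F, ¬ AII X Y key ∧ ¬ BII X Y j key := by
  classical
  -- a general principle
  have main : ∀ V : (Fin a → Bool) → Fin 3,
      ((V (X 0 j) < V (Y 0 j) ∧ V (Y g j) < V (X g j)) ∨
        (V (Y 0 j) < V (X 0 j) ∧ V (X g j) < V (Y g j))) →
      ∃ key ∈ F, ¬ AII X Y key ∧ ¬ BII X Y j key := by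
    intro V hV
    set W : Fin r × (Fin a → Bool) → Fin 3 := fun q =>
      if q.1 = i then (if q.2 = X 0 i then 0 else 1) else V q.2 with hW
    obtain ⟨key, hkey, W', hW', hk⟩ := hF.wt
      {(i, X 0 i), (i, X 1 i), (j, X 0 j), (j, Y 0 j), (j, X g j), (j, Y g j)}
      (le_trans Finset.card_le_six (by norm_num)) W
    have hij : j ≠ i := ne_of_gt h.ij
    have w1 : W' (i, X 0 i) = 0 := by
      rw [hW' _ (by simp)]; simp [hW]
    have w2 : W' (i, X 1 i) = 1 := by
      rw [hW' _ (by simp)]; simp [hW, X01 h]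
    have w3 : W' (j, X 0 j) = V (X 0 j) := by
      rw [hW' _ (by simp)]; simp [hW, hij]
    have w4 : W' (j, Y 0 j) = V (Y 0 j) := by
      rw [hW' _ (by simp)]; simp [hW, hij]
    have w5 : W' (j, X g j) = V (X g j) := by
      rw [hW' _ (by simp)]; simp [hW, hij]
    have w6 : W' (j, Y g j) = V (Y g j) := by
      rw [hW' _ (by simp)]; simp [hW, hij]
    refine ⟨key, hkey, ?_, ?_⟩
    · intro hA
      have h2 := hA.2 g
      rcases hV with ⟨v1, v2⟩ | ⟨v1, v2⟩
      · have k1 : key (X 0) < key (Y 0) :=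
          hk _ _ j (fun b hb => h.xy b hb 0) (by rw [w3, w4]; exact v1)
        have k2 : key (Y g) < key (X g) :=
          hk _ _ j (fun b hb => (h.xy b hb g).symm) (by rw [w5, w6]; exact v2)
        have := h2.2 k1
        omega
      · have k1 : key (Y 0) < key (X 0) :=
          hk _ _ j (fun b hb => (h.xy b hb 0).symm) (by rw [w3, w4]; exact v1)
        have k2 : key (X g) < key (Y g) :=
          hk _ _ j (fun b hb => h.xy b hb g) (by rw [w5, w6]; exact v2)
        have := h2.1 k2
        omega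
    · intro hB
      have e0 : Y 0 i = X 0 i := (h.xy i h.ij 0).symm
      have e1 : Y 1 i = X 1 i := (h.xy i h.ij 1).symm
      have a0 : ∀ b, b < i → Y 0 b = X 0 b := fun b hb => (h.xy b (hb.trans h.ij) 0).symm
      have a1 : ∀ b, b < i → X 1 b = X 0 b := fun b hb => h.agree b hb 1
      have a2 : ∀ b, b < i → Y 1 b = X 0 b := fun b hb => by
        rw [← h.xy b (hb.trans h.ij) 1]; exact a1 b hb
      have k1 : key (X 0) < key (X 1) :=
        hk _ _ i (fun b hb => (a1 b hb).symm) (by rw [w1, w2]; decide)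
      have k2 : key (X 0) < key (Y 1) :=
        hk _ _ i (fun b hb => (a2 b hb).symm) (by rw [e1, w1, w2]; decide)
      have k3 : key (Y 0) < key (X 1) :=
        hk _ _ i (fun b hb => by rw [a0 b hb, a1 b hb]) (by rw [e0, w1, w2]; decide)
      have k4 : key (Y 0) < key (Y 1) :=
        hk _ _ i (fun b hb => by rw [a0 b hb, a2 b hb]) (by rw [e0, e1, w1, w2]; decide)
      have hblk : Blk key (X 0) (Y 0) (X 1) (Y 1) := by
        unfold Blk
        exact ⟨by simp [k1, k2], by simp [k1, k3], by simp [k1, k4]⟩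
      exact not_blk_crs (hF.inj key hkey) (Y0X1 h) hblk hB.1
  by_cases hx : X g j = X 0 j
  · have hy : Y g j ≠ Y 0 j := by
      rcases hg with hg | hg
      · exact absurd hx hg
      · exact hg
    refine main (fun s => if s = Y 0 j then 0 else if s = Y g j then 2 else 1) (Or.inr ?_)
    have t1 := XY h 0 0
    have t2 := XY h 0 g
    have t3 := XY h g 0
    have t4 := XY h g g
    simp only [t1, t2, t3, t4, hy, if_true, if_false]
    decide
  · refine main (fun s => if s = X 0 j then 0 else if s = X g j then 2 else 1) (Or.inl ?_)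
    have t1 := (XY h 0 0).symm
    have t2 := (XY h 0 g).symm
    have t3 := (XY h g 0).symm
    have t4 := (XY h g g).symm
    simp only [t1, t2, t3, t4, hx, if_true, if_false]
    decide

/-- before `d` in block `i` the points `X 0, X 1` agree -/
lemma agree_d {X Y : Fin 3 → Om r a} {i j : Fin r} {c d e : Fin a} (h : CaseII X Y i j c d e)
    {b : Fin a} (hb : b < d) : X 1 i b = X 0 i b := by
  rcases lt_trichotomy b c with h1 | h1 | h1
  · exact h.prei b h1 1
  · rw [h1]; exact h.atc.1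
  · exact h.mid b h1 hb

/-- case (b) -/
lemma caseB {κ : ℕ} {F : Finset (Om r a → ℕ)} (hκ : 0 < κ) (hF : Rich κ F)
    {X Y : Fin 3 → Om r a} {i j : Fin r}
    {c d e : Fin a} (h : CaseII X Y i j c d e) (hcd : (c : ℕ) / κ < (d : ℕ) / κ) :
    ∃ key ∈ F, ¬ AII X Y key ∧ ¬ BII X Y j key := by
  obtain ⟨key, hkey, φ, hk⟩ := hF.cutB i j ((d : ℕ) / κ)
    (Nat.div_le_div_right (le_of_lt d.2))
  have hij : j ≠ i := ne_of_gt h.ij
  have hd : (d : ℕ) / κ * κ ≤ d := Nat.div_mul_le_self _ _
  have hc : (c : ℕ) < (d : ℕ) / κ * κ := (Nat.div_lt_iff_lt_mul hκ).1 hcd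
  refine ⟨key, hkey, fun hA => ?_, fun hB => ?_⟩
  · have hcrs : Crs key (X 0) (Y 0) (X 1) (Y 1) := by
      refine crs_of hk (p := (j, e)) ?_ ?_ ?_ ?_
      · rintro ⟨b, f⟩ hb
        simp only [Before, stB, hij, false_and, if_false, if_true, nrk] at hb
        split_ifs at hb with h1 h2
        · obtain ⟨rfl, h1⟩ := h1
          have hf : f < d := by
            rw [Fin.lt_def]; omega
          have := agree_d h hf
          simp only
          rw [← h.xy b h.ij 0, ← h.xy b h.ij 1, this]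
          exact ⟨rfl, rfl, rfl⟩
        · have h3 : f < e := by
            rw [Fin.lt_def]
            rw [h2] at hb
            omega
          simp only
          rw [h2]
          exact ⟨(h.prej f h3 0).2.symm, (h.prej f h3 1).1.symm, (h.prej f h3 1).2.symm⟩
        · omega
      · simp only; rw [(h.ate 0).1, (h.ate 1).1]
      · simp only; rw [(h.ate 0).2, (h.ate 1).2]
      · simp only; rw [(h.ate 0).1, (h.ate 0).2]; decide
    exact not_blk_crs (hF.inj key hkey) (Y0X1 h) (hA.1 0 1 (by decide)) hcrs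
  · have hblk : Blk key (X 0) (Y 0) (X 2) (Y 2) := by
      refine blk_of hk (p := (i, c)) ?_ ?_ ?_ ?_
      · rintro ⟨b, f⟩ hb
        simp only [Before, stB, hc, true_and, if_true, nrk] at hb
        split_ifs at hb with h1 h2
        · obtain ⟨rfl, h1⟩ := h1
          have h3 : f < c := by
            rw [Fin.lt_def]; omega
          simp only
          rw [← h.xy b h.ij 0, ← h.xy b h.ij 2, h.prei f h3 2]
          exact ⟨rfl, rfl, rfl⟩
        · rcases hb with hb | hb
          · omega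
          · exact hb.1.elim
        · rcases hb with hb | hb
          · omega
          · exact hb.1.elim
      · simp only; rw [h.xy i h.ij 0]
      · simp only; rw [h.xy i h.ij 2]
      · simp only; exact fun q => h.atc.2 q.symm
    exact not_blk_crs (hF.inj key hkey) (Y0X2 h) hblk hB.2.1

/-- comparison of stages in the offset order -/
lemma stO_le {κ : ℕ} {j : Fin r} {o : ℕ} {p : Pos r a} {i : Fin r} {m : ℕ}
    (h : stO κ j o p ≤ ((i : ℕ) + 1) * (2 * a + 2) + m) (hm : m < 2 * a + 2) :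
    p.1 = j ∨ p.1 < i ∨ (p.1 = i ∧ 2 * ((p.2 : ℕ) / κ) + (if (p.2 : ℕ) % κ = o then 0 else 1) ≤ m) := by
  unfold stO at h
  by_cases hj : p.1 = j
  · exact Or.inl hj
  · right
    rw [if_neg hj] at h
    rcases lt_trichotomy (p.1 : ℕ) i with h1 | h1 | h1
    · left; exact h1
    · right
      rw [h1] at h
      exact ⟨Fin.ext h1, by omega⟩
    · exfalso
      have : ((i : ℕ) + 2) * (2 * a + 2) ≤ ((p.1 : ℕ) + 1) * (2 * a + 2) :=
        Nat.mul_le_mul_right _ (by omega)
      have e1 : ((i : ℕ) + 2) * (2 * a + 2) = ((i : ℕ) + 1) * (2 * a + 2) + (2 * a + 2) := by ring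
      omega

/-- equal digit and offset -/
lemma eq_of_div_mod {κ x y : ℕ} (h1 : x / κ = y / κ) (h2 : x % κ = y % κ) : x = y := by
  rw [← Nat.div_add_mod x κ, ← Nat.div_add_mod y κ, h1, h2]

/-- case (c) -/
lemma caseC {κ : ℕ} {F : Finset (Om r a → ℕ)} (hκ : 0 < κ) (hF : Rich κ F)
    {X Y : Fin 3 → Om r a} {i j : Fin r}
    {c d e : Fin a} (h : CaseII X Y i j c d e) (hcd : (c : ℕ) / κ = (d : ℕ) / κ)
    (hP : ProdII X Y j) :
    ∃ key ∈ F, ¬ AII X Y key ∧ ¬ BII X Y j key := by
  classical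
  have hij : i ≠ j := ne_of_lt h.ij
  have hcd' : (c : ℕ) < d := h.cd
  have hda : ∀ x : Fin a, 2 * ((x : ℕ) / κ) + 1 < 2 * a + 2 := by
    intro x
    have := Nat.div_le_self (x : ℕ) κ
    have := x.2
    omega
  have hmod : (c : ℕ) % κ ≠ (d : ℕ) % κ := by
    intro q
    have := eq_of_div_mod hcd q
    omega
  have hneq : ((i, d) : Pos r a) ≠ (i, c) := by
    intro q
    simp only [Prod.mk.injEq, true_and] at q
    rw [q] at hcd'
    omega
  -- positions read before `(i, d)`
  have bd : ∀ p' : Pos r a, Before (stO κ j ((d : ℕ) % κ)) p' (i, d) →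
      p'.1 = j ∨ p'.1 < i ∨ (p'.1 = i ∧ p'.2 < c) := by
    intro p' hp
    have hs : stO κ j ((d : ℕ) % κ) ((i, d) : Pos r a) =
        ((i : ℕ) + 1) * (2 * a + 2) + 2 * ((d : ℕ) / κ) := by
      simp [stO, hij]
    have hle : stO κ j ((d : ℕ) % κ) p' ≤ ((i : ℕ) + 1) * (2 * a + 2) + 2 * ((d : ℕ) / κ) := by
      rw [← hs]
      rcases hp with hp | hp
      · exact hp.le
      · exact hp.1.le
    have := hda d
    rcases stO_le hle (by omega) with h1 | h1 | ⟨h1, h2⟩
    · exact Or.inl h1
    · exact Or.inr (Or.inl h1)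
    · refine Or.inr (Or.inr ⟨h1, ?_⟩)
      have h3 : (p'.2 : ℕ) / κ < (d : ℕ) / κ := by
        by_contra h3
        have h4 : (p'.2 : ℕ) / κ = (d : ℕ) / κ := by
          have : 2 * ((p'.2 : ℕ) / κ) ≤ 2 * ((d : ℕ) / κ) := by omega
          omega
        have h5 : (p'.2 : ℕ) % κ = (d : ℕ) % κ := by
          by_contra h5
          rw [if_neg h5] at h2
          omega
        have h6 : p' = (i, d) := Prod.ext h1 (Fin.ext (eq_of_div_mod h4 h5))
        rw [h6] at hp
        exact Before.irrefl _ _ hp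
      rw [← hcd] at h3
      rw [Fin.lt_def]
      by_contra h4
      have := Nat.div_le_div_right (c := κ) (not_lt.1 h4)
      omega
  -- positions read before `(i, c)`
  have bc : ∀ p' : Pos r a, Before (stO κ j ((d : ℕ) % κ)) p' (i, c) →
      p'.1 = j ∨ p'.1 < i ∨ (p'.1 = i ∧ p'.2 < c) ∨ p' = (i, d) := by
    intro p' hp
    have hs : stO κ j ((d : ℕ) % κ) ((i, c) : Pos r a) =
        ((i : ℕ) + 1) * (2 * a + 2) + (2 * ((c : ℕ) / κ) + 1) := by
      simp only [stO, if_neg hij, if_neg hmod]; ring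
    have hle : stO κ j ((d : ℕ) % κ) p' ≤
        ((i : ℕ) + 1) * (2 * a + 2) + (2 * ((c : ℕ) / κ) + 1) := by
      rw [← hs]
      rcases hp with hp | hp
      · exact hp.le
      · exact hp.1.le
    rcases stO_le hle (hda c) with h1 | h1 | ⟨h1, h2⟩
    · exact Or.inl h1
    · exact Or.inr (Or.inl h1)
    · right; right
      by_cases h3 : (p'.2 : ℕ) / κ < (c : ℕ) / κ
      · left
        refine ⟨h1, ?_⟩
        rw [Fin.lt_def]
        by_contra h4
        have := Nat.div_le_div_right (c := κ) (not_lt.1 h4)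
        omega
      · have h4 : (p'.2 : ℕ) / κ = (c : ℕ) / κ := by
          have : 2 * ((p'.2 : ℕ) / κ) ≤ 2 * ((c : ℕ) / κ) + 1 := by omega
          omega
        by_cases h5 : (p'.2 : ℕ) % κ = (d : ℕ) % κ
        · right
          exact Prod.ext h1 (Fin.ext (eq_of_div_mod (h4.trans hcd) h5))
        · left
          refine ⟨h1, ?_⟩
          have hs' : stO κ j ((d : ℕ) % κ) p' =
              ((i : ℕ) + 1) * (2 * a + 2) + (2 * ((c : ℕ) / κ) + 1) := by
            simp only [stO, h1, if_neg hij, if_neg h5, h4]; ring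
          rcases hp with hp | hp
          · omega
          · have := nrk_lt_iff.1 hp.2
            simp only [h1, lt_irrefl, false_or, true_and] at this
            exact this
  -- agreement of the three points
  have ag : ∀ (g : Fin 3) (p' : Pos r a), (p'.1 = j ∨ p'.1 < i ∨ (p'.1 = i ∧ p'.2 < c)) →
      X g p'.1 p'.2 = X 0 p'.1 p'.2 := by
    intro g p' hp
    rcases hp with h1 | h1 | ⟨h1, h2⟩
    · rw [h1, (hP g).1]
    · rw [h.agree _ h1 g]
    · rw [h1]; exact h.prei _ h2 g
  -- the choice of the key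
  obtain ⟨key, hkey, φ, hφ, hk⟩ := hF.off j ((d : ℕ) % κ) (Nat.mod_lt _ hκ) {(i, d), (i, c)}
    (le_trans Finset.card_le_two (by norm_num))
    (fun p => if p = (i, d) then X 0 i d else if X 2 i d = X 0 i d then X 0 i c else X 2 i c)
  have p1 : φ (i, d) = X 0 i d := by rw [hφ _ (by simp)]; simp
  have p2 : φ (i, c) = if X 2 i d = X 0 i d then X 0 i c else X 2 i c := by
    rw [hφ _ (by simp), if_neg hneq.symm]
  refine ⟨key, hkey, fun hA => ?_, fun hB => ?_⟩
  · -- block `j` is read first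
    have hne : X 0 ≠ Y 0 := by
      intro q
      exact XY h 0 0 (by rw [q])
    obtain ⟨P, hPd⟩ := exists_FD (stO κ j ((d : ℕ) % κ)) hne
    have hse : stO κ j ((d : ℕ) % κ) ((j, e) : Pos r a) < 2 * a + 2 := by
      have := hda e
      simp only [stO, if_true]
      split_ifs <;> omega
    have hbj : ∀ p' : Pos r a, stO κ j ((d : ℕ) % κ) p' < 2 * a + 2 → p'.1 = j := by
      intro p' hp
      by_contra hj
      simp only [stO, if_neg hj] at hp
      have : 1 * (2 * a + 2) ≤ ((p'.1 : ℕ) + 1) * (2 * a + 2) := Nat.mul_le_mul_right _ (by omega)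
      omega
    have hPs : stO κ j ((d : ℕ) % κ) P < 2 * a + 2 := by
      by_contra hPs
      have hb : Before (stO κ j ((d : ℕ) % κ)) ((j, e) : Pos r a) P := Or.inl (by omega)
      have := hPd.1 _ hb
      simp only at this
      rw [(h.ate 0).1, (h.ate 0).2] at this
      exact absurd this (by decide)
    have hPj := hbj P hPs
    have hcrs : Crs key (X 0) (Y 0) (X 1) (Y 1) := by
      refine crs_of hk (p := P) ?_ ?_ ?_ ?_
      · intro p' hp'
        have hj : p'.1 = j := by
          refine hbj p' ?_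
          rcases hp' with hp | hp <;> omega
        refine ⟨hPd.1 p' hp', ?_, ?_⟩
        · rw [hj, (hP 1).1]
        · rw [hPd.1 p' hp', hj, (hP 1).2]
      · rw [hPj, (hP 1).1]
      · rw [hPj, (hP 1).2]
      · exact hPd.2
    exact not_blk_crs (hF.inj key hkey) (Y0X1 h) (hA.1 0 1 (by decide)) hcrs
  · have hB3 := hB.2.2 hP
    have hX10d : X 1 i d ≠ X 0 i d := h.atd
    by_cases h2 : X 2 i d = X 0 i d
    · rw [if_pos h2] at p2
      have f02 : FD (stO κ j ((d : ℕ) % κ)) (X 0) (X 2) (i, c) := by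
        refine ⟨fun p' hp' => ?_, fun q => h.atc.2 q.symm⟩
        rcases bc p' hp' with h1 | h1 | h1 | h1
        · exact (ag 2 p' (Or.inl h1)).symm
        · exact (ag 2 p' (Or.inr (Or.inl h1))).symm
        · exact (ag 2 p' (Or.inr (Or.inr h1))).symm
        · rw [h1]; exact h2.symm
      have f12 : FD (stO κ j ((d : ℕ) % κ)) (X 1) (X 2) (i, d) := by
        refine ⟨fun p' hp' => ?_, fun q => hX10d (q.trans h2)⟩
        rw [ag 1 p' (bd p' hp'), ag 2 p' (bd p' hp')]
      have k1 := (hk _ _ _ f02).2 p2.symm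
      have k2 := (hk _ _ _ f12).1 (hB3.1 k1)
      rw [p1] at k2
      exact hX10d k2
    · rw [if_neg h2] at p2
      have h21 : X 2 i d = X 1 i d := by
        revert h2 hX10d
        cases X 2 i d <;> cases X 1 i d <;> cases X 0 i d <;> simp
      have f02 : FD (stO κ j ((d : ℕ) % κ)) (X 0) (X 2) (i, d) := by
        refine ⟨fun p' hp' => ?_, fun q => h2 q.symm⟩
        rw [ag 2 p' (bd p' hp')]
      have f12 : FD (stO κ j ((d : ℕ) % κ)) (X 1) (X 2) (i, c) := by
        refine ⟨fun p' hp' => ?_, fun q => h.atc.2 (by rw [← h.atc.1]; exact q.symm)⟩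
        rcases bc p' hp' with h1 | h1 | h1 | h1
        · rw [ag 1 p' (Or.inl h1), ag 2 p' (Or.inl h1)]
        · rw [ag 1 p' (Or.inr (Or.inl h1)), ag 2 p' (Or.inr (Or.inl h1))]
        · rw [ag 1 p' (Or.inr (Or.inr h1)), ag 2 p' (Or.inr (Or.inr h1))]
        · rw [h1]; exact h21.symm
      have k1 := (hk _ _ _ f02).2 p1.symm
      have k2 := (hk _ _ _ f12).1 (hB3.1 k1)
      rw [p2] at k2
      simp only at k2
      rw [h.atc.1] at k2
      exact h.atc.2 k2.symm

theorem iix : S_IIX := by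
  intro r a κ F hκ hF X Y i j c d e h
  by_cases hP : ProdII X Y j
  · by_cases hcd : (c : ℕ) / κ < (d : ℕ) / κ
    · exact caseB hκ hF h hcd
    · have h1 : (c : ℕ) / κ ≤ (d : ℕ) / κ := Nat.div_le_div_right (le_of_lt h.cd)
      exact caseC hκ hF h (by omega) hP
  · unfold ProdII at hP
    push Not at hP
    obtain ⟨g, hg⟩ := hP
    refine caseA hF h g ?_
    by_cases hx : X g j = X 0 j
    · exact Or.inr (hg hx)
    · exact Or.inl hx

end W999.PS
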